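import Pool.Agent.X103.AdjointHC
import Pool.Agent.X103.TwoWell

/-!
# MP_e9de1a_an: the adjoint measures `μ^{ε,z}` need not converge as `ε → 0`

Dimension `n = 1`, `H(x, p) = p²/2`, `z = 0`, `T = 1`, and a periodic `C³` initial datum `g` for
which `y²/2 + g(y)` has exactly two global minima `±1/4`, both of quartic type, the left one being
modulated by `2 + sin(c log|y + 1/4|)`.
-/

set_option autoImplicit false

open MeasureTheory Filter Topology Set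

namespace Pool.Agent.Results.MP_e9de1a_an.TwoLimits

/-- Functions on the circle `𝕋 = ℝ/ℤ` are `1`-periodic functions on `ℝ`. The hypotheses on the
Hamiltonian `H = H(x, p)`: `C²`, periodic in `x`, convex in `p`, and (A1). -/
structure Admissible (H : ℝ → ℝ → ℝ) : Prop where
  smooth : ContDiff ℝ 2 (fun q : ℝ × ℝ => H q.1 q.2)
  per : ∀ x p, H (x + 1) p = H x p
  convex : ∀ x, ConvexOn ℝ univ (H x)
  A1 : ∀ M : ℝ, ∃ R : ℝ, ∀ x p, R ≤ |p| →
    M ≤ (1 / 2) * (H x p) ^ 2 + deriv (fun y => H y p) x * p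

/-- `u = u(t, x)` is a classical solution of `u_t + H(x, u_x) = ε u_xx` on `𝕋 × (0, ∞)`,
continuous on `𝕋 × [0, ∞)`, with `u(0, ·) = g`. -/
structure IsViscous (H : ℝ → ℝ → ℝ) (g : ℝ → ℝ) (ε : ℝ) (u : ℝ → ℝ → ℝ) : Prop where
  per : ∀ t, 0 ≤ t → ∀ x, u t (x + 1) = u t x
  init : ∀ x, u 0 x = g x
  cont : ContinuousOn (fun v : ℝ × ℝ => u v.1 v.2) (Ici 0 ×ˢ univ)
  eq : ∃ ut ux uxx : ℝ → ℝ → ℝ,
    ContinuousOn (fun v : ℝ × ℝ => ut v.1 v.2) (Ioi 0 ×ˢ univ) ∧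
    ContinuousOn (fun v : ℝ × ℝ => ux v.1 v.2) (Ioi 0 ×ˢ univ) ∧
    ContinuousOn (fun v : ℝ × ℝ => uxx v.1 v.2) (Ioi 0 ×ˢ univ) ∧
    ∀ t, 0 < t → ∀ x, HasDerivAt (fun s => u s x) (ut t x) t ∧ HasDerivAt (u t) (ux t x) x ∧
      HasDerivAt (ux t) (uxx t x) x ∧ ut t x + H x (ux t x) = ε * uxx t x

/-- `σ = (σ_t)`, `t ∈ [0, T]`, solves the adjoint equation
`-σ_t - div(D_p H(x, Du) σ) = ε Δσ` on `𝕋 × (0, T)` with `σ(T) = δ_z`: probability measures on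
`𝕋 ≅ [0, 1)`, weakly continuous in `t`, and satisfying the weak form of the equation against
every `f ∈ C^{1,2}([0, T] × 𝕋)`. -/
structure IsAdjoint (H : ℝ → ℝ → ℝ) (ε z T : ℝ) (u : ℝ → ℝ → ℝ) (σ : ℝ → Measure ℝ) : Prop where
  prob : ∀ t ∈ Icc 0 T, IsProbabilityMeasure (σ t)
  supp : ∀ t ∈ Icc 0 T, σ t (Ico 0 1)ᶜ = 0
  final : σ T = Measure.dirac (Int.fract z)
  cont : ∀ f : ℝ → ℝ, Continuous f → (∀ x, f (x + 1) = f x) →
    ContinuousOn (fun t => ∫ x, f x ∂(σ t)) (Icc 0 T)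
  eq : ∀ f ft fx fxx : ℝ → ℝ → ℝ,
    ContinuousOn (fun v : ℝ × ℝ => f v.1 v.2) (Icc 0 T ×ˢ univ) →
    ContinuousOn (fun v : ℝ × ℝ => ft v.1 v.2) (Icc 0 T ×ˢ univ) →
    ContinuousOn (fun v : ℝ × ℝ => fx v.1 v.2) (Icc 0 T ×ˢ univ) →
    ContinuousOn (fun v : ℝ × ℝ => fxx v.1 v.2) (Icc 0 T ×ˢ univ) →
    (∀ t ∈ Icc 0 T, ∀ x, f t (x + 1) = f t x) →
    (∀ t ∈ Ioo 0 T, ∀ x, HasDerivAt (fun s => f s x) (ft t x) t) →
    (∀ t ∈ Icc 0 T, ∀ x, HasDerivAt (f t) (fx t x) x) →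
    (∀ t ∈ Icc 0 T, ∀ x, HasDerivAt (fx t) (fxx t x) x) →
    ∀ s t, 0 ≤ s → s ≤ t → t ≤ T →
      ∫ x, f t x ∂(σ t) - ∫ x, f s x ∂(σ s)
        = ∫ r in s..t, ∫ x, (ft r x + deriv (H x) (deriv (u r) x) * fx r x - ε * fxx r x) ∂(σ r)

/-- `∫ ψ dμ^{ε,z} = ∫₀ᵀ ∫ ψ(x, Du(x, t), t) dσ_t(x) dt`. -/
noncomputable def mu (T : ℝ) (u : ℝ → ℝ → ℝ) (σ : ℝ → Measure ℝ) (ψ : ℝ → ℝ → ℝ → ℝ) : ℝ :=
  ∫ t in (0 : ℝ)..T, ∫ x, ψ x (deriv (u t) x) t ∂(σ t)

open Pool.Agent.X103.HeatG Pool.Agent.X103.HopfCole Pool.Agent.X103.AdjointHC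
open Pool.Agent.X103.TwoWell (g_per g_contDiff gm dl dl_pos dl_lt dl_tendsto Fc Bc Psi)

/-- The Hamiltonian `p²/2`. -/
noncomputable def Hq (_x p : ℝ) : ℝ := p ^ 2 / 2

lemma deriv_Hq (x p : ℝ) : deriv (Hq x) p = p := by
  have h1 : HasDerivAt (fun p : ℝ => p ^ 2 / 2) (2 * p / 2) p := by
    have := (hasDerivAt_pow 2 p).div_const 2
    simpa using this
  have h2 : Hq x = fun p : ℝ => p ^ 2 / 2 := rfl
  rw [h2, h1.deriv]
  ring

lemma admissible : Admissible Hq where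
  smooth := by
    have : ContDiff ℝ 2 (fun q : ℝ × ℝ => q.2 ^ 2 / 2) := by fun_prop
    exact this
  per := fun x p => rfl
  convex := fun x => by
    have h1 : ConvexOn ℝ univ (fun p : ℝ => p ^ 2) := Even.convexOn_pow (by norm_num)
    have h2 := h1.smul (c := (1 / 2 : ℝ)) (by norm_num)
    refine h2.congr fun p _ => ?_
    simp only [smul_eq_mul, Hq]
    ring
  A1 := fun M => by
    refine ⟨2 + |M|, fun x p hp => ?_⟩
    have h1 : deriv (fun y => Hq y p) x = 0 := by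
      have : (fun y => Hq y p) = fun _ => p ^ 2 / 2 := rfl
      rw [this, deriv_const]
    rw [h1, Hq]
    have h2 : 2 ≤ |p| := by linarith [abs_nonneg M]
    have h3 : M ≤ |p| := by linarith [le_abs_self M]
    have h4 : p ^ 2 = |p| ^ 2 := (sq_abs p).symm
    rw [h4]
    have h5 : 2 ^ 3 ≤ |p| ^ 3 := pow_le_pow_left₀ (by norm_num) h2 3
    have h6 : |p| ≤ 1 / 2 * (|p| ^ 2 / 2) ^ 2 + 0 * p := by nlinarith [abs_nonneg p]
    linarith

/-- The Hopf-Cole datum. -/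
noncomputable def wf (c ε x : ℝ) : ℝ := Real.exp (-Pool.Agent.X103.TwoWell.g c x / (2 * ε))

lemma exists_dat (c : ℝ) {ε : ℝ} (hε : 0 < ε) :
    ∃ w1 w2 w3, Dat ε (wf c ε) w1 w2 w3 := by
  have h3 : ContDiff ℝ 3 (wf c ε) := by
    have := g_contDiff c
    have h : ContDiff ℝ 3 (fun x => -Pool.Agent.X103.TwoWell.g c x / (2 * ε)) :=
      this.neg.div_const _
    exact h.exp
  have h2 : ContDiff ℝ 2 (deriv (wf c ε)) := ContDiff.deriv' (n := 2) (by
    have e : (2 : WithTop ℕ∞) + 1 = 3 := by norm_num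
    rw [e]; exact h3)
  have h1 : ContDiff ℝ 1 (deriv (deriv (wf c ε))) := ContDiff.deriv' (n := 1) (by
    have e : (1 : WithTop ℕ∞) + 1 = 2 := by norm_num
    rw [e]; exact h2)
  have h0 : ContDiff ℝ 0 (deriv (deriv (deriv (wf c ε)))) := ContDiff.deriv' (n := 0) (by
    rw [zero_add]; exact h1)
  refine ⟨deriv (wf c ε), deriv (deriv (wf c ε)), deriv (deriv (deriv (wf c ε))), hε,
    h0.continuous, fun x => ?_, fun x => ?_, fun x => ?_, fun x => ?_,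
    fun x => Real.exp_pos _⟩
  · exact (h3.differentiable (by norm_num) x).hasDerivAt
  · exact (h2.differentiable (by norm_num) x).hasDerivAt
  · exact (h1.differentiable (by norm_num) x).hasDerivAt
  · simp only [wf, g_per]

variable {c ε : ℝ} {w1 w2 w3 : ℝ → ℝ}

/-- The explicit solution. -/
lemma viscous (D : Dat ε (wf c ε) w1 w2 w3) :
    IsViscous Hq (Pool.Agent.X103.TwoWell.g c) ε (U ε (wf c ε)) where
  per := fun t _ x => D.perU t x
  init := fun x => by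
    have := D.he
    rw [U, P_zero, wf, Real.log_exp]
    field_simp
  cont := D.cU.continuousOn
  eq := ⟨Ut ε (wf c ε) w2, V ε (wf c ε) w1, Vx ε (wf c ε) w1 w2, D.cUt.continuousOn,
    D.cV.continuousOn, D.cVx.continuousOn, fun t ht x => ⟨D.dUt ht x, D.dU t x, D.dV t x,
      D.pde t x⟩⟩

/-- Every solution is the explicit one. -/
lemma viscous_unique (D : Dat ε (wf c ε) w1 w2 w3) {u : ℝ → ℝ → ℝ}
    (hu : IsViscous Hq (Pool.Agent.X103.TwoWell.g c) ε u) {t : ℝ} (ht : 0 ≤ t) (x : ℝ) :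
    u t x = U ε (wf c ε) t x := by
  obtain ⟨ut, ux, uxx, ct, cx, cxx, h⟩ := hu.eq
  exact D.unique hu.per (fun x => by rw [wf, hu.init]) hu.cont ct cx cxx
    (fun s hs x => (h s hs x).1) (fun s hs x => (h s hs x).2.1) (fun s hs x => (h s hs x).2.2.1)
    (fun s hs x => (h s hs x).2.2.2) ht x

lemma deriv_unique (D : Dat ε (wf c ε) w1 w2 w3) {u : ℝ → ℝ → ℝ}
    (hu : IsViscous Hq (Pool.Agent.X103.TwoWell.g c) ε u) {t : ℝ} (ht : 0 ≤ t) (x : ℝ) :
    deriv (u t) x = V ε (wf c ε) w1 t x := by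
  have h1 : u t = U ε (wf c ε) t := funext fun x => viscous_unique D hu ht x
  rw [h1]
  exact (D.dU t x).deriv

/-- Existence for the adjoint equation. -/
lemma adjoint (D : Dat ε (wf c ε) w1 w2 w3) (z T : ℝ) :
    IsAdjoint Hq ε z T (U ε (wf c ε)) (sig ε (wf c ε) T z) where
  prob := fun t ht => ⟨sig_univ D ht⟩
  supp := fun t _ => sig_compl T z t
  final := sig_end D T z
  cont := fun f hf hp => sig_cont D hf hp
  eq := fun f ft fx fxx c0 ct cx cxx hper dt dx dxx s t hs hst ht => by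
    rw [sig_weak D c0 ct cx cxx hper dt dx dxx hs hst ht]
    refine intervalIntegral.integral_congr (fun r _ => ?_)
    refine integral_congr_ae (Eventually.of_forall fun x => ?_)
    simp only
    rw [deriv_Hq, (D.dU r x).deriv]

/-- For any solutions, `∫ p dμ = V(T, z)` with `T = 1`, `z = 0`. -/
lemma mu_value (D : Dat ε (wf c ε) w1 w2 w3) {u : ℝ → ℝ → ℝ} {σ : ℝ → Measure ℝ}
    (hu : IsViscous Hq (Pool.Agent.X103.TwoWell.g c) ε u) (hσ : IsAdjoint Hq ε 0 1 u σ) :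
    mu 1 u σ (fun _ p _ => p) = V ε (wf c ε) w1 1 0 := by
  have h1 : ∀ t ∈ Icc (0 : ℝ) 1, ∫ x, deriv (u t) x ∂(σ t) = V ε (wf c ε) w1 1 0 := by
    intro t ht
    have h2 := hσ.eq (V ε (wf c ε) w1) (Vt ε (wf c ε) w1 w2 w3) (Vx ε (wf c ε) w1 w2)
      (Vxx ε (wf c ε) w1 w2 w3) D.cV.continuousOn D.cVt.continuousOn D.cVx.continuousOn
      D.cVxx.continuousOn (fun t _ x => D.perV t x) (fun t ht x => D.dVt ht.1 x)
      (fun t _ x => D.dV t x) (fun t _ x => D.dVx t x) t 1 ht.1 ht.2 le_rfl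
    have h3 : ∫ r in t..1, ∫ x, (Vt ε (wf c ε) w1 w2 w3 r x + deriv (Hq x) (deriv (u r) x)
        * Vx ε (wf c ε) w1 w2 r x - ε * Vxx ε (wf c ε) w1 w2 w3 r x) ∂(σ r) = 0 := by
      have : ∫ r in t..1, ∫ x, (Vt ε (wf c ε) w1 w2 w3 r x + deriv (Hq x) (deriv (u r) x)
          * Vx ε (wf c ε) w1 w2 r x - ε * Vxx ε (wf c ε) w1 w2 w3 r x) ∂(σ r)
          = ∫ _r in t..1, (0 : ℝ) := by
        refine intervalIntegral.integral_congr (fun r hr => ?_)
        rw [uIcc_of_le ht.2] at hr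
        refine integral_eq_zero_of_ae ?_
        refine Eventually.of_forall fun x => ?_
        simp only [Pi.zero_apply]
        rw [deriv_Hq, deriv_unique D hu (ht.1.trans hr.1)]
        have := D.burgers r x
        linarith
      rw [this, intervalIntegral.integral_zero]
    rw [h3] at h2
    have h4 : ∫ x, V ε (wf c ε) w1 1 x ∂(σ 1) = V ε (wf c ε) w1 1 0 := by
      rw [hσ.final, Int.fract_zero, integral_dirac]
    have h5 : ∫ x, deriv (u t) x ∂(σ t) = ∫ x, V ε (wf c ε) w1 t x ∂(σ t) :=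
      integral_congr_ae (Eventually.of_forall fun x => deriv_unique D hu ht.1 x)
    rw [h5]
    linarith
  rw [mu]
  have h6 : ∫ t in (0 : ℝ)..1, ∫ x, deriv (u t) x ∂(σ t)
      = ∫ _t in (0 : ℝ)..1, V ε (wf c ε) w1 1 0 := by
    refine intervalIntegral.integral_congr (fun t ht => ?_)
    rw [uIcc_of_le zero_le_one] at ht
    exact h1 t ht
  rw [h6]
  simp

lemma value_eq (D : Dat ε (wf c ε) w1 w2 w3) : V ε (wf c ε) w1 1 0 = - gm c ε := by
  have he := D.he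
  rw [V_value D, gm]
  have e : ∀ y, Real.exp (-y ^ 2 / (4 * ε)) * wf c ε y = Real.exp (-Psi c y / (2 * ε)) := by
    intro y
    rw [wf, ← Real.exp_add, Psi]
    congr 1
    field_simp
    ring
  simp only [e]

/-- The gradient bound, uniform in `ε`. -/
lemma grad_bound (c : ℝ) : ∃ C, ∀ ε, ∀ w1 w2 w3, Dat ε (wf c ε) w1 w2 w3 → ∀ t x,
    |V ε (wf c ε) w1 t x| ≤ C := by
  have hg := g_contDiff c
  have hg1 : Continuous (deriv (Pool.Agent.X103.TwoWell.g c)) := hg.continuous_deriv (by norm_num)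
  have hgd : ∀ x, HasDerivAt (Pool.Agent.X103.TwoWell.g c)
      (deriv (Pool.Agent.X103.TwoWell.g c) x) x := fun x =>
    (hg.differentiable (by norm_num) x).hasDerivAt
  obtain ⟨-, G, hG⟩ := bd_of_per hg1 (per_deriv hgd (g_per c))
  refine ⟨G, fun ε w1 w2 w3 D t x => ?_⟩
  have he := D.he
  have hw1 : ∀ y, w1 y = wf c ε y * (-deriv (Pool.Agent.X103.TwoWell.g c) y / (2 * ε)) := fun y =>
    (D.d0 y).unique (((hgd y).neg.div_const (2 * ε)).exp)
  have hP := D.Ppos t x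
  have c0 := D.c0
  have c1 := D.c1
  obtain ⟨-, C0, hC0⟩ := D.b0
  obtain ⟨-, C1, hC1⟩ := D.b1
  have i0 : Integrable (fun η => wf c ε (x + √(2 * ε * t) * η)) gam :=
    integrable_of_bdd (C := C0) (by fun_prop) (fun η => hC0 _)
  have h1 : |P ε w1 t x| ≤ G / (2 * ε) * P ε (wf c ε) t x := by
    rw [P, P, ← integral_const_mul]
    refine (abs_integral_le_integral_abs).trans ?_
    refine integral_mono_of_nonneg (Eventually.of_forall fun η => abs_nonneg _)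
      (i0.const_mul _) (Eventually.of_forall fun η => ?_)
    simp only
    rw [hw1, abs_mul, abs_of_pos (D.pos _), abs_div, abs_neg, abs_of_pos (by positivity : 0 < 2 * ε)]
    rw [mul_comm]
    exact mul_le_mul_of_nonneg_right (div_le_div_of_nonneg_right (hG _) (by positivity))
      (D.pos _).le
  rw [V, abs_mul, abs_div, abs_of_pos hP, abs_mul, abs_neg, abs_of_pos he, abs_two]
  have h2 : |P ε w1 t x| / P ε (wf c ε) t x ≤ G / (2 * ε) := by
    rw [div_le_iff₀ hP]; exact h1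
  calc 2 * ε * (|P ε w1 t x| / P ε (wf c ε) t x) ≤ 2 * ε * (G / (2 * ε)) :=
        mul_le_mul_of_nonneg_left h2 (by positivity)
    _ = G := by field_simp

/-- **Q1 of MP_e9de1a_an has a negative answer.** There are an admissible Hamiltonian, a `C²`
datum `g`, a point `z` and a time `T` (in dimension one) such that for every `ε ∈ (0, 1)` the
viscous equation and its adjoint have solutions, the gradients are bounded uniformly in `ε`, and,
whatever the solutions chosen, `∫ p dμ^{ε,z}` has two different limits along two sequences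
`ε → 0`; so `μ^{ε,z}` does not converge weakly. -/
theorem result :
    ∃ (H : ℝ → ℝ → ℝ) (g : ℝ → ℝ) (z T : ℝ), 0 < T ∧ Admissible H ∧ ContDiff ℝ 2 g ∧
      (∀ x, g (x + 1) = g x) ∧
      (∀ ε ∈ Ioo (0 : ℝ) 1, ∃ u σ, IsViscous H g ε u ∧ IsAdjoint H ε z T u σ) ∧
      (∃ C, ∀ ε ∈ Ioo (0 : ℝ) 1, ∀ u, IsViscous H g ε u → ∀ t, 0 < t → ∀ x,
        |deriv (u t) x| ≤ C) ∧
      ∃ (a b : ℕ → ℝ) (L M : ℝ), (∀ k, a k ∈ Ioo (0 : ℝ) 1) ∧ (∀ k, b k ∈ Ioo (0 : ℝ) 1) ∧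
        Tendsto a atTop (𝓝 0) ∧ Tendsto b atTop (𝓝 0) ∧ L ≠ M ∧
        ∀ (u : ℝ → ℝ → ℝ → ℝ) (σ : ℝ → ℝ → Measure ℝ),
          (∀ ε ∈ Ioo (0 : ℝ) 1, IsViscous H g ε (u ε) ∧ IsAdjoint H ε z T (u ε) (σ ε)) →
          Tendsto (fun k => mu T (u (a k)) (σ (a k)) (fun _ p _ => p)) atTop (𝓝 L) ∧
          Tendsto (fun k => mu T (u (b k)) (σ (b k)) (fun _ p _ => p)) atTop (𝓝 M) := by
  obtain ⟨c, hc, hF⟩ := Pool.Agent.X103.TwoWell.Fc_ne
  have hpi := Real.pi_pos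
  have ha : |Real.pi / 2| ≤ Real.pi / 2 := by rw [abs_of_pos (by positivity)]
  have hb : |-(Real.pi / 2)| ≤ Real.pi / 2 := by rw [abs_neg]; exact ha
  have main : ∀ θ, |θ| ≤ Real.pi / 2 → (∀ k, dl c θ k ^ 4 ∈ Ioo (0 : ℝ) 1) ∧
      Tendsto (fun k => dl c θ k ^ 4) atTop (𝓝 0) ∧
      ∀ (u : ℝ → ℝ → ℝ → ℝ) (σ : ℝ → ℝ → Measure ℝ),
        (∀ ε ∈ Ioo (0 : ℝ) 1, IsViscous Hq (Pool.Agent.X103.TwoWell.g c) ε (u ε) ∧
          IsAdjoint Hq ε 0 1 (u ε) (σ ε)) →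
        Tendsto (fun k => mu 1 (u (dl c θ k ^ 4)) (σ (dl c θ k ^ 4)) (fun _ p _ => p)) atTop
          (𝓝 (-((-1 / 4 * Fc θ c + 1 / 4 * Bc c) / (Fc θ c + Bc c)))) := by
    intro θ hθ
    have hm : ∀ k, dl c θ k ^ 4 ∈ Ioo (0 : ℝ) 1 := fun k =>
      ⟨pow_pos (dl_pos c θ k) 4, pow_lt_one₀ (dl_pos c θ k).le (dl_lt hc hθ k) (by norm_num)⟩
    refine ⟨hm, ?_, fun u σ h => ?_⟩
    · have := (dl_tendsto (θ := θ) hc).pow 4
      simpa using this
    · refine (Pool.Agent.X103.TwoWell.gm_limit hc hθ).neg.congr fun k => ?_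
      obtain ⟨w1, w2, w3, D⟩ := exists_dat c (hm k).1
      obtain ⟨h1, h2⟩ := h _ (hm k)
      rw [mu_value D h1 h2, value_eq D]
  obtain ⟨a1, a2, a3⟩ := main (Real.pi / 2) ha
  obtain ⟨b1, b2, b3⟩ := main (-(Real.pi / 2)) hb
  refine ⟨Hq, Pool.Agent.X103.TwoWell.g c, 0, 1, one_pos, admissible,
    (g_contDiff c).of_le (by norm_num), g_per c, fun ε hε => ?_, ?_, _, _, _, _, a1, b1, a2, b2,
    fun h => Pool.Agent.X103.TwoWell.gm_two hF (neg_injective h), fun u σ h => ⟨a3 u σ h, b3 u σ h⟩⟩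
  · obtain ⟨w1, w2, w3, D⟩ := exists_dat c hε.1
    exact ⟨_, _, viscous D, adjoint D 0 1⟩
  · obtain ⟨C, hC⟩ := grad_bound c
    refine ⟨C, fun ε hε u hu t ht x => ?_⟩
    obtain ⟨w1, w2, w3, D⟩ := exists_dat c hε.1
    rw [deriv_unique D hu ht.le]
    exact hC ε w1 w2 w3 D t x

end Pool.Agent.Results.MP_e9de1a_an.TwoLimits
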